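import Mathlib
import Pool.Agent.R582.Rand.LaverForce

/-!
# MP_a4e7db_lc: there are no Laver ultrafilters in the random model
-/

namespace Pool.Agent.Results.MP_a4e7db_lc.NoneInRandomModel

open Cardinal
open Pool.Agent.Helper292.SP (fnot fex)
open Pool.Agent.R582.Rand (MAlg coins IsLaver)

/-- Forcing with the measure algebra `MAlg (coins X)` of the product measure on `{0,1}^X`, where
`X` has more than `2 ^ ℵ₀` elements, every condition forces that there is no Laver ultrafilter on
`ℕ`. In particular, if the continuum hypothesis holds and `X` has cardinality `ℵ₂` (the random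
model), every condition forces that there is no Laver ultrafilter. -/
theorem result :
    (∀ X : Type, (2 : Cardinal.{0}) ^ (ℵ₀ : Cardinal.{0}) < #X → ∀ p : MAlg (coins X),
      p ∈ fnot (fex fun U : (ℕ → Set (MAlg (coins X))) → Set (MAlg (coins X)) => IsLaver U)) ∧
    ((2 : Cardinal.{0}) ^ (ℵ₀ : Cardinal.{0}) = ℵ_ 1 → ∀ X : Type, #X = ℵ_ 2 →
      ∀ p : MAlg (coins X),
      p ∈ fnot (fex fun U : (ℕ → Set (MAlg (coins X))) → Set (MAlg (coins X)) => IsLaver U)) := by
  refine ⟨fun X hX p => Pool.Agent.R582.Rand.no_laver (by rwa [two_power_aleph0] at hX) p,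
    fun hCH X hX p => Pool.Agent.R582.Rand.no_laver ?_ p⟩
  rw [two_power_aleph0] at hCH
  rw [hCH, hX]
  exact aleph_lt_aleph.2 (by exact_mod_cast (by norm_num : (1 : ℕ) < 2))

end Pool.Agent.Results.MP_a4e7db_lc.NoneInRandomModel
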